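import Pool.Agent.Work.MP_0ed2d6_al.Twin

set_option autoImplicit false

open Matrix

namespace Pool.Agent.Results.MP_0ed2d6_al.SolvableExample

/-- The only element of finite order is the identity. -/
def TorsionFree (G : Type) [Group G] : Prop := ∀ x : G, IsOfFinOrder x → x = 1

/-- The class `𝒞ₙ`: the groups isomorphic to a torsion-free subgroup of `GL_n` over the field of
algebraic numbers inside the complex numbers. -/
def InClass (n : ℕ) (Q : Type) [Group Q] : Prop :=
  ∃ H : Subgroup (GL (Fin n) (algebraicClosure ℚ ℂ)), TorsionFree H ∧ Nonempty (Q ≃* H)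

/-- Residually `𝒞ₙ`: every nontrivial element lies outside a normal subgroup whose quotient is in
the class `𝒞ₙ`. -/
def ResiduallyClass (n : ℕ) (G : Type) [Group G] : Prop :=
  ∀ g : G, g ≠ 1 → ∃ (N : Subgroup G) (_ : N.Normal), g ∉ N ∧ InClass n (G ⧸ N)

/-- There is a finitely generated torsion-free subgroup `G` of `GL_3(ℂ)`, solvable of derived
length at most three, which is not residually `𝒞₃`. More strongly, `G` has a nontrivial central
element that is killed by every homomorphism from `G` to `GL_3(K)`, for any field `K` algebraic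
over the rationals, whose image has no element of order two or three. -/
theorem result : ∃ G : Subgroup (GL (Fin 3) ℂ), G.FG ∧ TorsionFree G ∧ derivedSeries G 3 = ⊥ ∧
    ¬ ResiduallyClass 3 G ∧
    ∃ z ∈ Subgroup.center G, z ≠ 1 ∧
      ∀ (K : Type) [Field K] [Algebra ℚ K] [Algebra.IsAlgebraic ℚ K] (φ : G →* GL (Fin 3) K),
        (∀ h : G, φ h ^ 6 = 1 → φ h = 1) → φ z = 1 := by
  obtain ⟨G, hfg, htf, hsol, z, hzc, hz1, hφ⟩ := Pool.Agent.Work.MP_0ed2d6_al.main_strong
  refine ⟨G, hfg, htf, hsol, ?_, z, hzc, hz1, hφ⟩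
  intro hres
  obtain ⟨N, hN, hzN, H, hH, ⟨e⟩⟩ := hres z hz1
  have := hN
  apply hzN
  let φ : G →* GL (Fin 3) (algebraicClosure ℚ ℂ) :=
    H.subtype.comp (e.toMonoidHom.comp (QuotientGroup.mk' N))
  have h1 : φ z = 1 := by
    refine @hφ (algebraicClosure ℚ ℂ) _ _ (algebraicClosure.isAlgebraic ℚ ℂ) φ ?_
    intro h hh
    have h2 : (e (QuotientGroup.mk' N h)) ^ 6 = 1 := by
      apply H.subtype_injective
      rw [map_pow, map_one]
      exact hh
    have h3 := hH _ (isOfFinOrder_iff_pow_eq_one.mpr ⟨6, by norm_num, h2⟩)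
    show H.subtype (e (QuotientGroup.mk' N h)) = 1
    rw [h3, map_one]
  have h4 : e (QuotientGroup.mk' N z) = 1 := by
    apply H.subtype_injective
    rw [map_one]
    exact h1
  have h5 : QuotientGroup.mk' N z = 1 := by
    apply e.injective
    rw [h4, map_one]
  exact (QuotientGroup.eq_one_iff z).mp h5

end Pool.Agent.Results.MP_0ed2d6_al.SolvableExample
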